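import Pool.Agent.P.MP_e30989_nt.W.All
import Pool.Agent.P.MP_e30989_nt.W.Degen
import Pool.Agent.P.MP_a14ce1_nt.V.All
import Pool.Agent.P.MP_a14ce1_nt.Top

open Pool.Agent.P.MP_e30989_nt

namespace Pool.Agent.Results.MP_e30989_nt.Converse

/-- A multiplicative function with values in the unit disc that is not pretentious is completely
deterministic exactly when the mean value of its modulus is zero. -/
theorem result : ∀ f : ℕ → Disc, IsMult f → ¬ Pret f → (CompDet f ↔ Trivial f) :=
  W.iff_of_q1 (W.q1_of_lu Pool.Agent.P.MP_a14ce1_nt.V.v_all Pool.Agent.P.MP_a14ce1_nt.Top.lu_all)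

end Pool.Agent.Results.MP_e30989_nt.Converse
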